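import Pool.Agent.V11175.Excess32
import Pool.Agent.V11175.Data32

/-!
# Deleting a row of a Hadamard matrix: the excess may depend on the row

There is a Hadamard matrix of order `32` with `C(H, 0) ≤ 168` and `C(H, 2) ≥ 170`.
-/

set_option autoImplicit false

namespace Pool.Agent.Results.MP_ba6bee_co.OrderThirtyTwo

open Finset Pool.Agent.V11175.Excess32 Pool.Agent.V11175.Search32 Pool.Agent.V11175.Data32

/-- `H` is a real Hadamard matrix of order `n`. -/
def IsHadamard {n : ℕ} (H : Matrix (Fin n) (Fin n) ℤ) : Prop :=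
  (∀ i j, H i j = 1 ∨ H i j = -1) ∧ H * H.transpose = (n : ℤ) • (1 : Matrix (Fin n) (Fin n) ℤ)

/-- A vector of signs. -/
def IsSign {n : ℕ} (a : Fin n → ℤ) : Prop := ∀ i, a i = 1 ∨ a i = -1

/-- `C(H, r)`: the maximum of `∑ a_i H_ij b_j` over sign vectors `a, b`, the row `r` being left out
(the sign `a_r` plays no role). -/
noncomputable def C {n : ℕ} (H : Matrix (Fin n) (Fin n) ℤ) (r : Fin n) : ℤ :=
  sSup {v : ℤ | ∃ a b : Fin n → ℤ, IsSign a ∧ IsSign b ∧
    v = ∑ i ∈ univ.erase r, ∑ j, a i * H i j * b j}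

/-! ### From the block to the search -/

/-- The special block: six rows with private columns. -/
def Blk (p q : Fin 32) (R : Finset (Fin 32)) : Prop :=
  (0 : Fin 32) ∈ R ∧ R.card = 6 ∧ ∀ i ∈ R, ∃ c : Fin 32, ∀ k ∈ R,
    H k c * H p c * (H k q * H p q) = if k = i then -1 else 1

theorem sign_of_sum {C : Finset (Fin 32)} {g : Fin 32 → ℤ} (hg : ∀ j, g j = 1 ∨ g j = -1)
    (hC : C.card = 6) (h : ∑ j ∈ C, g j = -4) :
    ∃ j ∈ C, g j = 1 ∧ ∀ l ∈ C, l ≠ j → g l = -1 := by
  have h1 : ∃ j ∈ C, g j ≠ -1 := by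
    by_contra hcon
    push Not at hcon
    rw [Finset.sum_congr rfl hcon] at h
    simp [hC] at h
  obtain ⟨j, hj, hj1⟩ := h1
  have hj2 : g j = 1 := (hg j).resolve_right hj1
  refine ⟨j, hj, hj2, ?_⟩
  have h2 := Finset.add_sum_erase C g hj
  rw [h, hj2] at h2
  have h3 : ∑ l ∈ C.erase j, (1 + g l) = 0 := by
    rw [Finset.sum_add_distrib, Finset.sum_const, Finset.card_erase_of_mem hj, hC]
    simp
    omega
  intro l hl hlj
  have h4 := (Finset.sum_eq_zero_iff_of_nonneg (fun l _ => by
    rcases hg l with h | h <;> rw [h] <;> norm_num)).1 h3 l (Finset.mem_erase.2 ⟨hlj, hl⟩)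
  omega

/-- A sum of at least `169` without the row `0` gives a block. -/
theorem exists_blk (a b : Fin 32 → ℤ) (ha : IsSign a) (hb : IsSign b)
    (h : 169 ≤ ∑ i ∈ univ.erase 0, ∑ j, a i * H i j * b j) : ∃ p q R, Blk p q R := by
  -- better signs of the rows
  obtain ⟨a', ha', hpos, hle⟩ : ∃ a' : Fin 32 → ℤ, IsSign a' ∧ (∀ i, 0 ≤ ∑ j, a' i * H i j * b j) ∧
      ∀ i, ∑ j, a i * H i j * b j ≤ ∑ j, a' i * H i j * b j := by
    have key : ∀ i, ∃ s : ℤ, (s = 1 ∨ s = -1) ∧ 0 ≤ ∑ j, s * H i j * b j ∧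
        ∑ j, a i * H i j * b j ≤ ∑ j, s * H i j * b j := by
      intro i
      have h1 : ∑ j, (-a i) * H i j * b j = -∑ j, a i * H i j * b j := by
        rw [← Finset.sum_neg_distrib]
        exact Finset.sum_congr rfl (fun j _ => by ring)
      rcases le_total 0 (∑ j, a i * H i j * b j) with h2 | h2
      · exact ⟨a i, ha i, h2, le_rfl⟩
      · refine ⟨-a i, ?_, by rw [h1]; omega, by rw [h1]; omega⟩
        rcases ha i with h3 | h3 <;> rw [h3] <;> simp
    choose a' h1 h2 h3 using key
    exact ⟨a', h1, h2, h3⟩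
  have hsq : ∀ {x : ℤ}, (x = 1 ∨ x = -1) → x * x = 1 := fun h => sign_sq h
  obtain ⟨p, q, R, C, h0R, hR, hC, hpR, hqC, hGpq, hGp, hGq, hrow, hcol⟩ :=
    core (fun i j => a' i * H i j * b j)
      (fun i j => by
        rcases ha' i with h1 | h1 <;> rcases H_sign i j with h2 | h2 <;> rcases hb j with h3 | h3 <;>
          simp [h1, h2, h3])
      (fun i k hik => by
        have : ∀ j, a' i * H i j * b j * (a' k * H k j * b j) = a' i * a' k * (H i j * H k j) := by
          intro j
          calc _ = a' i * a' k * (H i j * H k j) * (b j * b j) := by ring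
            _ = _ := by rw [hsq (hb j), mul_one]
        rw [Finset.sum_congr rfl (fun j _ => this j), ← Finset.mul_sum, H_rows, if_neg hik, mul_zero])
      (fun j l hjl => by
        have : ∀ i, a' i * H i j * b j * (a' i * H i l * b l) = b j * b l * (H i j * H i l) := by
          intro i
          calc _ = b j * b l * (H i j * H i l) * (a' i * a' i) := by ring
            _ = _ := by rw [hsq (ha' i), mul_one]
        rw [Finset.sum_congr rfl (fun i _ => this i), ← Finset.mul_sum, H_cols, if_neg hjl, mul_zero])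
      0 hpos (h.trans (Finset.sum_le_sum fun i _ => hle i))
  have hGs : ∀ i j, a' i * H i j * b j = 1 ∨ a' i * H i j * b j = -1 := by
    intro i j
    rcases ha' i with h1 | h1 <;> rcases H_sign i j with h2 | h2 <;> rcases hb j with h3 | h3 <;>
      simp [h1, h2, h3]
  refine ⟨p, q, R, h0R, hR, fun i hi => ?_⟩
  obtain ⟨c, hc, hc1, _⟩ := sign_of_sum (fun j => hGs i j) hC (hrow i hi)
  obtain ⟨i', hi', hi'1, hi'2⟩ := sign_of_sum (fun i => hGs i c) hR (hcol c hc)
  have hii : i' = i := by
    by_contra hne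
    have := hi'2 i hi (Ne.symm hne)
    omega
  subst hii
  refine ⟨c, fun k hk => ?_⟩
  have e1 : H k c * H p c * (H k q * H p q) =
      (a' k * H k c * b c) * (a' p * H p c * b c) * ((a' k * H k q * b q) * (a' p * H p q * b q)) := by
    calc H k c * H p c * (H k q * H p q)
        = H k c * H p c * (H k q * H p q) * ((a' k * a' k) * (a' p * a' p) * (b c * b c) * (b q * b q)) := by
          rw [hsq (ha' k), hsq (ha' p), hsq (hb c), hsq (hb q)]; ring
      _ = _ := by ring
  have e2 := hGp c hc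
  have e3 := hGq k hk
  rw [e1, e2, e3, hGpq]
  by_cases hki : k = i'
  · subst hki
    rw [hi'1, if_pos rfl]; norm_num
  · have := hi'2 k hk hki
    rw [this, if_neg hki]; norm_num

/-- Blocks can be translated: the column `q` may be taken to be `0`. -/
theorem blk_trans {p q : Fin 32} {R : Finset (Fin 32)} (h : Blk p q R) :
    Blk (pm q p) 0 (R.image (pm q)) := by
  classical
  -- the signs
  have hsg : ∀ i, ∃ e : ℤ, e * e = 1 ∧ ∀ j, H i j = e * H (pm q i) (sh q j) := by
    intro i
    rcases trans q i with h1 | h1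
    · refine ⟨1, by norm_num, fun j => ?_⟩
      unfold H; rw [h1 j, one_mul]
    · refine ⟨-1, by norm_num, fun j => ?_⟩
      unfold H; rw [h1 j]
      cases (row (pm q i)).testBit (sh q j) <;> simp
  choose e he hH using hsg
  have hval : ∀ k c, H k c * H p c * (H k q * H p q) =
      H (pm q k) (sh q c) * H (pm q p) (sh q c) * (H (pm q k) 0 * H (pm q p) 0) := by
    intro k c
    rw [hH k c, hH p c, hH k q, hH p q, sh_self]
    calc _ = (e k * e k) * (e p * e p) * (H (pm q k) (sh q c) * H (pm q p) (sh q c) *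
          (H (pm q k) 0 * H (pm q p) 0)) := by ring
      _ = _ := by rw [he, he]; ring
  obtain ⟨h0, hcard, hb⟩ := h
  have hinj : ∀ k ∈ R, ∀ i ∈ R, pm q k = pm q i → k = i := by
    intro k hk i hi hki
    by_contra hne
    obtain ⟨c, hc⟩ := hb i hi
    have h1 := hc k hk
    have h2 := hc i hi
    rw [hval, if_neg hne, hki] at h1
    rw [hval, if_pos rfl] at h2
    rw [h1] at h2
    norm_num at h2
  refine ⟨Finset.mem_image.2 ⟨0, h0, pm_zero q⟩, ?_, ?_⟩
  · rw [Finset.card_image_of_injOn (fun k hk i hi hki => hinj k hk i hi hki), hcard]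
  · intro i' hi'
    obtain ⟨i, hi, rfl⟩ := Finset.mem_image.1 hi'
    obtain ⟨c, hc⟩ := hb i hi
    refine ⟨sh q c, fun k' hk' => ?_⟩
    obtain ⟨k, hk, rfl⟩ := Finset.mem_image.1 hk'
    rw [← hval, hc k hk]
    by_cases hki : k = i
    · rw [if_pos hki, if_pos (by rw [hki])]
    · rw [if_neg hki, if_neg (fun h => hki (hinj k hk i hi h))]

theorem good_map (p : Fin 32) (f : Fin 32 → Fin 32) : ∀ (l : List (Fin 32)) (unc : ℕ), l.Nodup →
    (∀ i ∈ l, unc.testBit (f i) = true) → (∀ i ∈ l, (E p i).1.testBit (f i) = true) →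
    (∀ i ∈ l, ∀ k ∈ l, i ≠ k → (E p k).2.testBit (f i) = true) → Good (l.map fun i : Fin 32 => E p i) unc
  | [], _, _, _, _, _ => trivial
  | i :: l, unc, hnd, h1, h2, h3 => by
    rw [List.nodup_cons] at hnd
    refine ⟨⟨f i, h1 i (List.mem_cons_self ..), h2 i (List.mem_cons_self ..), ?_⟩, ?_⟩
    · intro e' he'
      obtain ⟨k, hk, rfl⟩ := List.mem_map.1 he'
      exact h3 i (List.mem_cons_self ..) k (List.mem_cons_of_mem _ hk)
        (fun h => hnd.1 (h ▸ hk))
    · apply good_map p f l _ hnd.2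
      · intro k hk
        rw [Nat.testBit_and, h1 k (List.mem_cons_of_mem _ hk),
          h3 k (List.mem_cons_of_mem _ hk) i (List.mem_cons_self ..) (fun h => hnd.1 (h ▸ hk))]
        rfl
      · exact fun k hk => h2 k (List.mem_cons_of_mem _ hk)
      · exact fun k hk k' hk' => h3 k (List.mem_cons_of_mem _ hk) k' (List.mem_cons_of_mem _ hk')

theorem H_zero_col : ∀ i : Fin 32, H i 0 = 1 := by decide +kernel

theorem H_zero_row : ∀ j : Fin 32, H 0 j = 1 := by decide +kernel

theorem full_bit : ∀ j : Fin 32, full.testBit j = true := by decide +kernel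

theorem mask_bit : ∀ j : Fin 32, j ≠ 0 → (4294967294 : ℕ).testBit j = true := by decide +kernel

theorem bit_of_neg {k p c : Fin 32} (h : H k c * H p c = -1) :
    (row k ^^^ row p).testBit c = true := by
  unfold H at h
  rw [Nat.testBit_xor]
  cases h1 : (row k).testBit c <;> cases h2 : (row p).testBit c <;> simp [h1, h2] at h ⊢

theorem bit_of_pos {k p c : Fin 32} (h : H k c * H p c = 1) :
    (row k ^^^ row p ^^^ full).testBit c = true := by
  unfold H at h
  rw [Nat.testBit_xor, Nat.testBit_xor, full_bit]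
  cases h1 : (row k).testBit c <;> cases h2 : (row p).testBit c <;> simp [h1, h2] at h ⊢

theorem no_blk_zero (p : Fin 32) (R : Finset (Fin 32)) : ¬ Blk p 0 R := by
  classical
  rintro ⟨h0, hcard, hb⟩
  have hb' : ∀ i ∈ R, ∃ c : Fin 32, ∀ k ∈ R, H k c * H p c = if k = i then -1 else 1 := by
    intro i hi
    obtain ⟨c, hc⟩ := hb i hi
    refine ⟨c, fun k hk => ?_⟩
    have := hc k hk
    rwa [H_zero_col, H_zero_col, mul_one, mul_one] at this
  have hpR : p ∉ R := by
    intro hp
    obtain ⟨c, hc⟩ := hb' p hp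
    have := hc p hp
    rw [if_pos rfl, sign_sq (H_sign p c)] at this
    norm_num at this
  have hp0 : p ≠ 0 := fun h => hpR (h ▸ h0)
  have hex : ∀ i, ∃ c : Fin 32, i ∈ R → ∀ k ∈ R, H k c * H p c = if k = i then -1 else 1 := by
    intro i
    by_cases hi : i ∈ R
    · obtain ⟨c, hc⟩ := hb' i hi
      exact ⟨c, fun _ => hc⟩
    · exact ⟨0, fun h => absurd h hi⟩
  choose f hf using hex
  have hrow0 : row 0 = 0 := rfl
  -- the selected list
  set l : List (Fin 32) := (List.finRange 32).filter (fun i => decide (i ∈ R ∧ i ≠ 0)) with hl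
  have hmem : ∀ i, i ∈ l ↔ i ∈ R ∧ i ≠ 0 := by
    intro i
    rw [hl, List.mem_filter, decide_eq_true_iff]
    simp
  have hnd : l.Nodup := (List.nodup_finRange 32).filter _
  have hlen : l.length = 5 := by
    have h1 : l.toFinset = R.erase 0 := by
      ext i
      rw [List.mem_toFinset, hmem, Finset.mem_erase, and_comm]
    rw [← List.toFinset_card_of_nodup hnd, h1, Finset.card_erase_of_mem h0, hcard]
  have hcf := chk_all p hp0
  have hct : chk p = true := by
    unfold chk
    apply search_sound (L p) 5 [row p] _ (l.map fun i : Fin 32 => E p i)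
    · unfold L
      apply List.Sublist.map
      rw [hl]
      apply List.monotone_filter_right
      intro i hi
      rw [decide_eq_true_iff] at hi ⊢
      exact ⟨hi.2, fun h => hpR (h ▸ hi.1)⟩
    · rw [List.length_map, hlen]
    · intro e he
      obtain ⟨i, _, rfl⟩ := List.mem_map.1 he
      exact E_dis p i
    · apply good_map p f l _ hnd
      · intro i hi
        obtain ⟨hiR, hi0⟩ := (hmem i).1 hi
        have hfi0 : f i ≠ 0 := by
          intro h
          have := hf i hiR i hiR
          rw [h, H_zero_col, H_zero_col, if_pos rfl] at this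
          norm_num at this
        have h1 := hf i hiR 0 h0
        rw [if_neg (Ne.symm hi0)] at h1
        have h2 := bit_of_pos h1
        rw [Nat.testBit_and, mask_bit _ hfi0, Bool.true_and]
        have h3 : row (0 : Fin 32) = 0 := rfl
        rw [h3, Nat.zero_xor] at h2
        exact h2
      · intro i hi
        obtain ⟨hiR, _⟩ := (hmem i).1 hi
        have h1 := hf i hiR i hiR
        rw [if_pos rfl] at h1
        exact bit_of_neg h1
      · intro i hi k hk hik
        obtain ⟨hiR, _⟩ := (hmem i).1 hi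
        obtain ⟨hkR, _⟩ := (hmem k).1 hk
        have h1 := hf i hiR k hkR
        rw [if_neg (Ne.symm hik)] at h1
        exact bit_of_pos h1
    · intro P hP
      rw [List.mem_singleton] at hP
      subst hP
      refine ⟨f 0, ?_, ?_⟩
      · have h1 := hf 0 h0 0 h0
        rw [if_pos rfl] at h1
        have h2 := bit_of_neg h1
        have h3 : row (0 : Fin 32) = 0 := rfl
        rwa [h3, Nat.zero_xor] at h2
      · intro e he
        obtain ⟨k, hk, rfl⟩ := List.mem_map.1 he
        obtain ⟨hkR, hk0⟩ := (hmem k).1 hk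
        have h1 := hf 0 h0 k hkR
        rw [if_neg hk0] at h1
        exact bit_of_pos h1
  rw [hcf] at hct
  exact Bool.noConfusion hct

theorem upper (a b : Fin 32 → ℤ) (ha : IsSign a) (hb : IsSign b) :
    ∑ i ∈ univ.erase 0, ∑ j, a i * H i j * b j ≤ 168 := by
  by_contra hcon
  push Not at hcon
  obtain ⟨p, q, R, h⟩ := exists_blk a b ha hb (by omega)
  exact no_blk_zero _ _ (blk_trans h)

/-- The sign vectors for the row `2`. -/
def av : Fin 32 → ℤ := ![1, 1, -1, -1, -1, 1, -1, -1, -1, 1, 1, -1, 1, -1, -1, 1, 1, -1, -1, 1, -1, -1, -1,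
  -1, 1, -1, -1, -1, -1, -1, 1, -1]

def bv : Fin 32 → ℤ := ![-1, 1, 1, 1, 1, 1, 1, -1, -1, -1, 1, 1, 1, 1, 1, 1, 1, -1, 1, -1, 1, -1, -1, -1,
  1, 1, 1, -1, -1, 1, 1, 1]

theorem value : ∑ i ∈ univ.erase 2, ∑ j, av i * H i j * bv j = 170 := by decide +kernel

theorem av_sign : IsSign av := by unfold IsSign; decide +kernel

theorem bv_sign : IsSign bv := by unfold IsSign; decide +kernel

theorem H_hadamard : IsHadamard H := by
  refine ⟨H_sign, ?_⟩
  ext i k
  rw [Matrix.mul_apply]
  simp only [Matrix.transpose_apply]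
  rw [H_rows]
  simp [Matrix.one_apply]

theorem bdd (r : Fin 32) : BddAbove {v : ℤ | ∃ a b : Fin 32 → ℤ, IsSign a ∧ IsSign b ∧
    v = ∑ i ∈ univ.erase r, ∑ j, a i * H i j * b j} := by
  refine ⟨∑ i ∈ univ.erase r, ∑ _j : Fin 32, (1 : ℤ), ?_⟩
  rintro v ⟨a, b, ha, hb, rfl⟩
  apply Finset.sum_le_sum
  intro i _
  apply Finset.sum_le_sum
  intro j _
  rcases ha i with h1 | h1 <;> rcases H_sign i j with h2 | h2 <;> rcases hb j with h3 | h3 <;>
    simp [h1, h2, h3]

/-- There is a real Hadamard matrix `H` of order `32` and two rows `r, s` with `C(H, r) ≠ C(H, s)`;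
more precisely `C(H, 0) ≤ 168` and `C(H, 2) ≥ 170`. -/
theorem result : ∃ H : Matrix (Fin 32) (Fin 32) ℤ, IsHadamard H ∧ C H 0 ≤ 168 ∧ 170 ≤ C H 2 := by
  refine ⟨H, H_hadamard, ?_, ?_⟩
  · apply csSup_le
    · exact ⟨_, av, bv, av_sign, bv_sign, rfl⟩
    · rintro v ⟨a, b, ha, hb, rfl⟩
      exact upper a b ha hb
  · exact le_csSup (bdd 2) ⟨av, bv, av_sign, bv_sign, value.symm⟩

end Pool.Agent.Results.MP_ba6bee_co.OrderThirtyTwo
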